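import Pool.Agent.helper67.RG.Spec

/-!
# Project rg (MP_2e0e07_nt), row ALG: the algebra homomorphism of the 2 x 2 matrices
-/

set_option autoImplicit false

namespace Pool.Agent.RG.ALG

open Matrix Pool.Agent.RG

theorem ALG_anti {F : Type*} [Field F] (Z W : Matrix (Fin 2) (Fin 2) F) (hZ : Z.trace = 0)
    (hW : W.trace = 0) : Z * W + W * Z = (Z * W).trace • (1 : Matrix (Fin 2) (Fin 2) F) := by
  rw [Matrix.trace_fin_two] at hZ hW
  have hZ' : Z 1 1 = -Z 0 0 := by linear_combination hZ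
  have hW' : W 1 1 = -W 0 0 := by linear_combination hW
  ext i j
  fin_cases i <;> fin_cases j <;>
    simp [Matrix.mul_apply, Fin.sum_univ_two, Matrix.trace_fin_two, hZ', hW'] <;> ring

theorem ALG_det {F : Type*} [Field F] (Z W : Matrix (Fin 2) (Fin 2) F) (hZ : Z.trace = 0)
    (hW : W.trace = 0) : -(Z + W).det + Z.det + W.det = (Z * W).trace := by
  rw [Matrix.trace_fin_two] at hZ hW
  have hZ' : Z 1 1 = -Z 0 0 := by linear_combination hZ
  have hW' : W 1 1 = -W 0 0 := by linear_combination hW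
  rw [Matrix.det_fin_two, Matrix.det_fin_two, Matrix.det_fin_two, Matrix.trace_fin_two]
  simp only [Matrix.mul_apply, Fin.sum_univ_two, Matrix.add_apply, hZ', hW']
  ring

/-- **ALG** -/
theorem ALG : ALG_stmt := by
  intro F A _ _ _ _ σ hσ hsq
  have h2 : (2 : F) ≠ 0 := two_ne_zero
  -- products of trace zero matrices
  have key : ∀ Z W : Matrix (Fin 2) (Fin 2) F, Z.trace = 0 → W.trace = 0 →
      σ Z * σ W = ((Z * W).trace / 2) • (1 : A) + σ (Z * W) := by
    intro Z W hZ hW
    have e1 : σ Z * σ W + σ W * σ Z = ((Z * W).trace) • (1 : A) := by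
      have h3 := hsq (Z + W) (by rw [Matrix.trace_add, hZ, hW, add_zero])
      have h4 := hsq Z hZ
      have h5 := hsq W hW
      rw [map_add] at h3
      have h6 : σ Z * σ W + σ W * σ Z = (σ Z + σ W) * (σ Z + σ W) - σ Z * σ Z - σ W * σ W := by
        noncomm_ring
      rw [h6, h3, h4, h5, ← ALG_det Z W hZ hW, ← sub_smul, ← sub_smul]
      congr 1
      ring
    have e2 : σ (Z * W) + σ (Z * W) = σ Z * σ W - σ W * σ Z := by
      have h7 : Z * W + Z * W = (Z * W - W * Z) +
          (Z * W).trace • (1 : Matrix (Fin 2) (Fin 2) F) := by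
        rw [← ALG_anti Z W hZ hW]
        abel
      rw [← map_add, h7, map_add, map_smul, hσ.one, smul_zero, add_zero, hσ.lie]
    have e3 : (2 : F) • (σ Z * σ W) =
        (2 : F) • (((Z * W).trace / 2) • (1 : A) + σ (Z * W)) := by
      rw [smul_add, smul_smul, mul_div_cancel₀ _ h2, two_smul, two_smul, ← e1, e2]
      abel
    have e4 := congrArg (fun x => (2 : F)⁻¹ • x) e3
    simp only [smul_smul, inv_mul_cancel₀ h2, one_smul] at e4
    exact e4
  set Φ : Matrix (Fin 2) (Fin 2) F →ₗ[F] A :=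
    { toFun := fun Z => (Z.trace / 2) • (1 : A) + σ Z
      map_add' := by
        intro Z W
        rw [Matrix.trace_add, add_div, add_smul, map_add]
        abel
      map_smul' := by
        intro c Z
        rw [Matrix.trace_smul, smul_eq_mul, mul_div_assoc, map_smul, RingHom.id_apply, smul_add,
          smul_smul] } with hΦ
  have hval : ∀ Z, Φ Z = (Z.trace / 2) • (1 : A) + σ Z := fun Z => rfl
  have hone : Φ 1 = 1 := by
    rw [hval, hσ.one, add_zero, Matrix.trace_one, Fintype.card_fin]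
    rw [show (((2 : ℕ) : F) / 2) = 1 by push_cast; exact div_self h2, one_smul]
  have hmul : ∀ Z W, Φ (Z * W) = Φ Z * Φ W := by
    intro Z W
    -- trace zero parts
    have hdec : ∀ Z : Matrix (Fin 2) (Fin 2) F, ∃ Z₀ : Matrix (Fin 2) (Fin 2) F, Z₀.trace = 0 ∧
        Z = (Z.trace / 2) • (1 : Matrix (Fin 2) (Fin 2) F) + Z₀ := by
      intro Z
      refine ⟨Z - (Z.trace / 2) • (1 : Matrix (Fin 2) (Fin 2) F), ?_, by abel⟩
      rw [Matrix.trace_sub, Matrix.trace_smul, Matrix.trace_one, Fintype.card_fin, smul_eq_mul]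
      push_cast
      field_simp
      ring
    obtain ⟨Z₀, hZ₀, hZ⟩ := hdec Z
    obtain ⟨W₀, hW₀, hW⟩ := hdec W
    set a := Z.trace / 2
    set b := W.trace / 2
    have k0 : ∀ X : Matrix (Fin 2) (Fin 2) F, X.trace = 0 → Φ X = σ X := by
      intro X hX
      rw [hval, hX, zero_div, zero_smul, zero_add]
    have k1 : Φ (Z₀ * W₀) = Φ Z₀ * Φ W₀ := by
      rw [k0 Z₀ hZ₀, k0 W₀ hW₀, key Z₀ W₀ hZ₀ hW₀, hval]
    have k2 : Z * W = (a * b) • (1 : Matrix (Fin 2) (Fin 2) F) + a • W₀ + b • Z₀ + Z₀ * W₀ := by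
      rw [hZ, hW]
      rw [add_mul, mul_add, mul_add, smul_mul_assoc, smul_mul_assoc, mul_smul_comm, mul_smul_comm,
        one_mul, one_mul, mul_one, smul_smul]
      abel
    rw [k2, map_add, map_add, map_add, map_smul, map_smul, map_smul, hone, k1, hZ, hW, map_add,
      map_add, map_smul, map_smul, hone]
    rw [add_mul, mul_add, mul_add, smul_mul_assoc, smul_mul_assoc, mul_smul_comm, mul_smul_comm,
      one_mul, one_mul, mul_one, smul_smul]
    abel
  refine ⟨AlgHom.ofLinearMap Φ hone hmul, fun Z hZ => ?_⟩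
  rw [AlgHom.ofLinearMap_apply, hval, hZ, zero_div, zero_smul, zero_add]

end Pool.Agent.RG.ALG
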